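import Mathlib
import Pool.Agent.H.MP_44eb6b_gt.B
import Pool.Agent.H.MP_44eb6b_gt.C

namespace Pool.Agent.Results.MP_44eb6b_gt.No

open Set Function Topology Filter TopologicalSpace Cardinal
open Pool.Agent.H.MP_44eb6b_gt.B Pool.Agent.H.MP_44eb6b_gt.C

/-- Continuous real functions with the topology of pointwise convergence. -/
abbrev Cp (X : Type) [TopologicalSpace X] : Type := {f : X → ℝ // Continuous f}

/-- Every closed subspace is separable. -/
def CS (Z : Type) [TopologicalSpace Z] : Prop := ∀ F : Set Z, IsClosed F → SeparableSpace F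

noncomputable def tm (z : ℕ → ℝ) (n : ℕ) : ℝ := (1 / 2) ^ n * max 0 (min 1 (2 - |z (n + 1) - z 0|))

noncomputable def hh (z : ℕ → ℝ) : ℝ := ∑' n, tm z n

lemma t0 (z n) : 0 ≤ tm z n := mul_nonneg (by positivity) (le_max_left _ _)

lemma t1 (z n) : tm z n ≤ (1 / 2) ^ n :=
  mul_le_of_le_one_right (by positivity) (max_le zero_le_one (min_le_left _ _))

lemma ts (z) : Summable (tm z) := .of_nonneg_of_le (t0 z) (t1 z) summable_geometric_two

lemma hc : Continuous hh := continuous_tsum (fun n => by unfold tm; fun_prop) summable_geometric_two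
  fun n z => by rw [Real.norm_of_nonneg (t0 z n)]; exact t1 z n

lemma t2 {z : ℕ → ℝ} {n} (h : |z (n + 1) - z 0| ≤ 1) : tm z n = (1 / 2) ^ n := by
  unfold tm; rw [min_eq_left (by linarith)]; simp

lemma t3 {z : ℕ → ℝ} {n} (h : 2 ≤ |z (n + 1) - z 0|) : tm z n = 0 := by
  unfold tm; rw [max_eq_left ((min_le_right _ _).trans (by linarith))]; simp

noncomputable def ind (u : Finset Co) (y : K) (r : ℝ) : C(K, ℝ) :=
  ⟨fun x => if (fun c : u => x c) = fun c : u => y c then r else 0,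
    (continuous_of_discreteTopology (f := fun t : u → Bool =>
      if t = fun c : u => y c then r else 0)).comp (by fun_prop)⟩

lemma i0 {u : Finset Co} {y x : K} {r : ℝ} {c} (h : c ∈ u) (k : x c ≠ y c) : ind u y r x = 0 :=
  if_neg fun l => k (congrFun l ⟨c, h⟩)

lemma ec {Z : Type} [TopologicalSpace Z] (z : Z) : Continuous fun f : Cp Z => f.1 z :=
  (continuous_apply z).comp continuous_subtype_val

instance (x : K) : NeBot (𝓝[≠] x) := mem_closure_iff_nhdsWithin_neBot.1 (mem_closure_iff.2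
  fun U u1 u2 => by
    obtain ⟨u, hu⟩ := bas u1 u2
    obtain ⟨c, hc⟩ := Infinite.exists_notMem_finset u
    exact ⟨update x c (!x c), hu _ fun d hd => update_of_ne (by rintro rfl; exact hc hd) _ _,
      fun k => by simpa using congrFun k c⟩)

theorem result (h : continuum.{0} = aleph 1) : ∃ (X : Type) (_ : TopologicalSpace X),
    T35Space X ∧ CS (ℕ → X) ∧ ¬ CS (Cp (Cp X)) := by
  classical
  obtain ⟨X, h1, h2, h3, h4⟩ := exX h
  refine ⟨X, inferInstance, inferInstance, fun F hF => ?_, fun H => ?_⟩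
  · have e : IsEmbedding fun (a : ℕ → X) i => (a i : K) :=
      IsEmbedding.piMap fun _ => IsEmbedding.subtypeVal
    obtain ⟨S, s1, s2, s3⟩ := sep h1 h2 (F := (fun (a : ℕ → X) i => (a i : K)) '' F)
      (by rintro _ ⟨a, -, rfl⟩ i; exact (a i).2) fun a a1 a2 => ⟨fun i => ⟨a i, a1 i⟩, by
        rw [← hF.closure_eq, e.closure_eq_preimage_closure_image]; exact a2, rfl⟩
    have e2 := e.comp (IsEmbedding.subtypeVal (p := (· ∈ F)))
    refine ⟨⟨_, s2.preimage e2.injective, fun a => ?_⟩⟩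
    rw [e2.closure_eq_preimage_closure_image, image_preimage_eq_of_subset
      (s1.trans (by rintro _ ⟨a, ha, rfl⟩; exact ⟨⟨a, ha⟩, rfl⟩))]
    exact s3 ⟨a, a.2, rfl⟩
  let res : C(K, ℝ) → Cp X := fun f => ⟨fun x => f x, by fun_prop⟩
  let P : Cp (Cp X) → (ℕ → K) → Prop := fun φ p =>
    CC p ∧ ∀ f : C(K, ℝ), (φ.1 (res f) - f (p 0)) * hh (fun n => f (p n)) = 1
  have hF : IsClosed {φ | ∃ p, P φ p} := by
    have : IsClosed {q : Cp (Cp X) × (ℕ → K) | P q.1 q.2} := by
      simp only [P, CC, setOf_and, setOf_forall]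
      refine (isClosed_iInter fun n => (isClosed_iInter fun m => isClosed_iInter fun _ =>
        isClosed_eq (by fun_prop) (by fun_prop)).inter ((isClosed_discrete
          {t : Bool × Bool | t.1 ≠ t.2}).preimage (f := fun q : Cp (Cp X) × (ℕ → K) =>
            (q.2 (n + 1) (.inl n), q.2 0 (.inl n))) (by fun_prop))).inter
        (isClosed_iInter fun f => isClosed_eq ?_ continuous_const)
      exact (((ec _).comp continuous_fst).sub (by fun_prop)).mul (hc.comp (by fun_prop))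
    convert isClosedMap_fst_of_compactSpace _ this using 1
    ext; simp
  have p1 : ∀ φ p, P φ p → ∀ f : C(K, ℝ), (∀ x, f x = 0 ∨ f x = 1) →
      φ.1 (res f) = f (p 0) + (hh 0)⁻¹ := fun φ p k f hf => by
    have : hh (fun n => f (p n)) = hh 0 := tsum_congr fun n => by
      rw [t2 (z := 0) (by simp), t2]
      rcases hf (p 0) with a | a <;> rcases hf (p (n + 1)) with b | b <;> simp [a, b]
    rw [← eq_inv_of_mul_eq_one_left (this ▸ k.2 f)]; ring
  have p2 : ∀ φ p, P φ p → ∀ n v, v ≠ (hh 0)⁻¹ → (∀ u : Finset Co, ∃ u' r, u ⊆ u' ∧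
      φ.1 (res (ind u' (p n) r)) = v) → p n ∈ X := fun φ p k n v hv l => by
    by_contra m
    obtain ⟨t, a1, a2⟩ := isOpen_induced_iff.1 ((isOpen_compl_singleton (x := v)).preimage φ.2)
    obtain ⟨S, w, w1, w2⟩ := isOpen_pi_iff.1 a1 (res 0).1 (a2.ge (show φ.1 (res 0) ≠ v by
      rw [p1 φ p k 0 fun _ => .inl rfl]; simpa using hv.symm))
    choose c hc using fun x : X => ne_iff.1 (show x.1 ≠ p n from fun e => m (e ▸ x.2))
    obtain ⟨u, r, u1, u2⟩ := l (S.image c)
    refine (Set.ext_iff.1 a2 (res (ind u (p n) r))).1 (w2 fun x hx => ?_) u2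
    have := i0 (r := r) (u1 (Finset.mem_image_of_mem c hx)) (hc x)
    simpa [res, this] using (w1 x hx).2
  have i1 : ∀ u y x, ind u y 1 x = 0 ∨ ind u y 1 x = 1 := fun u y x => by
    simp only [ind, ContinuousMap.coe_mk]; split_ifs <;> simp
  have p3 : ∀ φ p, P φ p → ∀ n, p n ∈ X := by
    rintro φ p k (_ | n)
    · exact p2 φ p k 0 (1 + (hh 0)⁻¹) (by simp) fun u => ⟨u, 1, subset_rfl, by
        rw [p1 φ p k _ (i1 _ _)]; simp [ind]⟩
    refine p2 φ p k _ (hh (Pi.single (n + 1) 2))⁻¹ (fun e => ((ts _).tsum_lt_tsum (i := n)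
      (fun m => (t1 _ m).trans (t2 (z := 0) (by simp)).ge) (by
        rw [t3 (by simp), t2 (by simp)]; positivity) (ts _)).ne (inv_inj.1 e)) fun u => ?_
    let u' := u ∪ (Finset.range (n + 1)).image Sum.inl
    have hu : ∀ m ≤ n, Sum.inl m ∈ u' := fun m hm => by simp [u']; omega
    have e : (fun m => ind u' (p (n + 1)) 2 (p m)) = Pi.single (n + 1) 2 := funext fun m => by
      obtain _ | m := m
      · simpa using i0 (hu n le_rfl) (k.1 n).2.symm
      rcases lt_trichotomy m n with l | rfl | l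
      · simpa [l.ne] using i0 (hu m l.le) (by rw [(k.1 n).1 m l]; exact (k.1 m).2)
      · simp [ind]
      · simpa [l.ne'] using i0 (hu n le_rfl) (by rw [(k.1 m).1 n l]; exact (k.1 n).2.symm)
    have := k.2 (ind u' (p (n + 1)) 2)
    rw [e, congrFun e 0] at this
    exact ⟨u', 2, Finset.subset_union_left, by simpa using eq_inv_of_mul_eq_one_left this⟩
  have i2 : ∀ α r x, ind {.inr α} (fun _ => true) r x = if x (.inr α) then r else 0 :=
    fun α r x => by simp [ind, funext_iff]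
  have p4 : ∀ φ, (∃ p, P φ p) →
      {α | φ.1 (res (ind {.inr α} (fun _ => true) 1)) ≠ (hh 0)⁻¹}.Countable := by
    rintro φ ⟨p, k⟩
    rcases h3 p (p3 φ p k) k.1 with l | ⟨α, l1, l2⟩
    · refine l.mono fun α hα => by_contra fun m => hα ?_
      rw [p1 φ p k _ (i1 _ _), i2, if_neg (by exact m), zero_add]
    · have := k.2 (ind {.inr α} (fun _ => true) 2)
      rw [hh, tsum_congr fun n => t3 (by simp [i2, l1, l2])] at this
      simp at this
  obtain ⟨S, s1, s2⟩ := (H _ hF).exists_countable_dense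
  obtain ⟨α, hα⟩ := bnd (s1.biUnion fun φ _ => p4 φ.1 φ.2)
  obtain ⟨p, q1, q2, q3, q4⟩ := h4 α
  have hp : ∀ f : Cp X, hh (fun n => f.1 ⟨p n, q1 n⟩) ≠ 0 := fun f => by
    have : Tendsto (fun n => |f.1 ⟨p (n + 1), q1 _⟩ - f.1 ⟨p 0, q1 0⟩|) atTop (𝓝 |0|) := by
      refine (tendsto_sub_nhds_zero_iff.2 ((f.2.tendsto _).comp ?_)).abs
      exact tendsto_subtype_rng.2 ((tendsto_add_atTop_iff_nat 1).2 q4)
    obtain ⟨n, hn⟩ := (this.eventually (ge_mem_nhds (by simp : |(0 : ℝ)| < 1))).exists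
    exact ((ts _).tsum_pos (t0 _) n (by rw [t2 hn]; positivity)).ne'
  let φ : Cp (Cp X) := ⟨fun f => f.1 ⟨p 0, q1 0⟩ + (hh fun n => f.1 ⟨p n, q1 n⟩)⁻¹,
    .add (ec _) (.inv₀ (hc.comp (continuous_pi fun _ => ec _)) hp)⟩
  have k : P φ p := ⟨q2, fun f => by simpa [φ, res] using inv_mul_cancel₀ (hp (res f))⟩
  have := (isClosed_eq (f := fun ψ : {φ | ∃ p, P φ p} =>
    ψ.1.1 (res (ind {Sum.inr α} (fun _ => true) 1))) (g := fun _ => (hh 0)⁻¹)
    ((ec _).comp continuous_subtype_val) continuous_const).closure_subset_iff.2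
      (fun ψ hψ => by_contra fun m => (hα α (mem_biUnion hψ (by exact m))).false) (s2 ⟨φ, p, k⟩)
  rw [mem_setOf_eq, p1 φ p k _ (i1 _ _), i2, q3] at this
  simp at this

end Pool.Agent.Results.MP_44eb6b_gt.No
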